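import Mathlib

/-!
MP_959bfa_co, weak nets for axis-parallel rectangles: the size bound
`C * (n / k) * (1 + sqrt (log (1 + log (n / k))))`.

Definitions and statements of all blocks.  Paper proof: BLUEPRINT.md in this folder.
-/

namespace Wn

open Finset

/-- classical filter (use `mem_fl`) -/
noncomputable def fl {α : Type} (S : Finset α) (p : α → Prop) : Finset α := by
  classical exact S.filter p

theorem mem_fl {α : Type} {S : Finset α} {p : α → Prop} {a : α} :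
    a ∈ fl S p ↔ a ∈ S ∧ p a := by
  unfold fl; simp

theorem fl_subset {α : Type} (S : Finset α) (p : α → Prop) : fl S p ⊆ S := by
  intro a ha; exact (mem_fl.1 ha).1

/-- a closed box `[l, r] x [b, t]` (it may be empty) -/
structure Bx where
  l : ℝ
  r : ℝ
  b : ℝ
  t : ℝ

/-- the point `(x, y)` lies in the box -/
def In (R : Bx) (x y : ℝ) : Prop := R.l ≤ x ∧ x ≤ R.r ∧ R.b ≤ y ∧ y ≤ R.t

/-- the box is nonempty -/
def Ne (R : Bx) : Prop := R.l ≤ R.r ∧ R.b ≤ R.t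

/-- the two boxes have no common point -/
def Dj (R S : Bx) : Prop := ∀ x y : ℝ, ¬ (In R x y ∧ In S x y)

/-! ### Part I: families of bounded depth -/

/-- `R i` is thin and tall and crosses `R j` -/
def Cr {ι : Type} (R : ι → Bx) (i j : ι) : Prop :=
  (R j).l < (R i).l ∧ (R i).r < (R j).r ∧ (R i).b < (R j).b ∧ (R j).t < (R i).t

/-- different members which meet and do not cross -/
def Nb {ι : Type} (R : ι → Bx) (i j : ι) : Prop :=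
  i ≠ j ∧ ¬ Dj (R i) (R j) ∧ ¬ Cr R i j ∧ ¬ Cr R j i

/-- some vertical line through `R i` meets at each height inside `R i` at most `m` members
which do not cross `R i` as thin ones -/
def PV {ι : Type} (R : ι → Bx) (J : Finset ι) (m : ℕ) (i : ι) : Prop :=
  ∃ x, (R i).l ≤ x ∧ x ≤ (R i).r ∧ ∀ y, (R i).b ≤ y → y ≤ (R i).t →
    (fl J (fun j => In (R j) x y ∧ ¬ Cr R j i)).card ≤ m

/-- some horizontal line through `R i` meets at least `h` flat members crossed by `R i` -/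
def QH {ι : Type} (R : ι → Bx) (J : Finset ι) (h : ℕ) (i : ι) : Prop :=
  ∃ y, (R i).b ≤ y ∧ y ≤ (R i).t ∧
    h ≤ (fl J (fun j => Cr R i j ∧ (R j).b ≤ y ∧ y ≤ (R j).t)).card

/-- every point lies in at most `w` members -/
def DepthLe {ι : Type} (R : ι → Bx) (J : Finset ι) (w : ℕ) : Prop :=
  ∀ x y, (fl J (fun j => In (R j) x y)).card ≤ w

/-- pairwise disjoint subfamily -/
def Indep {ι : Type} (R : ι → Bx) (T : Finset ι) : Prop :=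
  ∀ i ∈ T, ∀ j ∈ T, i ≠ j → Dj (R i) (R j)

/-- small slack -/
def Sm {ι : Type} (R : ι → Bx) (J : Finset ι) (s : ℕ) (i : ι) : Prop :=
  ∃ m, PV R J m i ∧ QH R J (m - s) i

/-- every family of depth at most `w` has a pairwise disjoint subfamily of at least
`|J| / (c w)` members -/
def DB (w c : ℕ) : Prop :=
  ∀ (ι : Type) (R : ι → Bx) (J : Finset ι), (∀ i ∈ J, Ne (R i)) → DepthLe R J w →
    ∃ T : Finset ι, T ⊆ J ∧ Indep R T ∧ J.card ≤ c * w * T.card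

/-- CORN: there are at most `8 w |J|` ordered pairs of members which meet without crossing
(one of the two contains a corner of the other). -/
def stmt_CORN : Prop :=
  ∀ (ι : Type) (R : ι → Bx) (J : Finset ι) (w : ℕ), (∀ i ∈ J, Ne (R i)) → DepthLe R J w →
    (fl (J ×ˢ J) (fun p => Nb R p.1 p.2)).card ≤ 8 * w * J.card

/-- RED: half of the members have at most `16 w` neighbours among themselves. -/
def stmt_RED : Prop :=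
  ∀ (ι : Type) (R : ι → Bx) (J : Finset ι) (w : ℕ), (∀ i ∈ J, Ne (R i)) → DepthLe R J w →
    ∃ J' : Finset ι, J' ⊆ J ∧ J.card ≤ 2 * J'.card ∧
      ∀ i ∈ J', (fl J' (fun j => Nb R i j)).card ≤ 16 * w

/-- LEM1 (clique lemma). -/
def stmt_LEM1 : Prop :=
  ∀ (ι : Type) (R : ι → Bx) (J : Finset ι) (m h : ℕ), (∀ i ∈ J, Ne (R i)) → ∀ x y : ℝ,
    (fl J (fun i => PV R J m i ∧ QH R J h i ∧ In (R i) x y)).card ≤ 4 * (m - h)

/-- COM (common neighbours of a crossing pair). -/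
def stmt_COM : Prop :=
  ∀ (ι : Type) (R : ι → Bx) (J : Finset ι) (m h : ℕ) (i j : ι), i ∈ J → j ∈ J →
    Ne (R i) → Ne (R j) → Cr R i j → ¬ PV R J m j → ¬ QH R J (h + 1) i →
    m + 1 - h ≤ (fl J (fun k => Nb R i k ∧ Nb R j k)).card

/-- CASEG: members of small slack. -/
def stmt_CASEG : Prop :=
  ∀ (ι : Type) (R : ι → Bx) (J G : Finset ι) (w lam s : ℕ), G ⊆ J → (∀ i ∈ J, Ne (R i)) →
    DepthLe R J w → 1 ≤ s → w ≤ lam * s → (∀ i ∈ G, Sm R J s i) →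
    ∃ G' : Finset ι, G' ⊆ G ∧ G.card ≤ lam * G'.card ∧ DepthLe R G' (8 * s)

/-- CASEL: members of large slack. -/
def stmt_CASEL : Prop :=
  ∀ (ι : Type) (R : ι → Bx) (J L : Finset ι) (w lam s : ℕ), L ⊆ J → (∀ i ∈ J, Ne (R i)) →
    DepthLe R J w → 1 ≤ s → 1 ≤ lam → w ≤ lam * s →
    (∀ i ∈ J, (fl J (fun j => Nb R i j)).card ≤ 16 * w) →
    (∀ i ∈ L, ¬ Sm R J (s - 1) i) → J.card ≤ 2 * L.card →
    ∃ T : Finset ι, T ⊆ L ∧ Indep R T ∧ J.card ≤ 200000 * lam ^ 3 * w * T.card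

/-- THB: disjoint subfamilies of families of bounded depth. -/
def stmt_THB : Prop :=
  ∃ C : ℕ, 1 ≤ C ∧ ∀ lam j w : ℕ, 32 ≤ lam → w * 16 ^ j ≤ lam ^ (j + 1) →
    DB w (C * 64 ^ j * lam ^ 3)

/-! ### Part II: counting packings and halving -/

/-- indices of the points in a box -/
noncomputable def inds {n : ℕ} (P : Fin n → ℝ × ℝ) (R : Bx) : Finset (Fin n) :=
  fl univ (fun i => In R (P i).1 (P i).2)

/-- the points are sorted by first coordinate (ties allowed) -/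
def Srt {n : ℕ} (P : Fin n → ℝ × ℝ) : Prop := Monotone (fun i => (P i).1)

/-- first element of its block -/
def Fst {n : ℕ} (E : Finset (Fin n)) (f : Fin n → ℕ) (i : Fin n) : Prop :=
  ∀ j ∈ E, j < i → f j ≠ f i

/-- last element of its block -/
def Lst {n : ℕ} (E : Finset (Fin n)) (f : Fin n → ℕ) (i : Fin n) : Prop :=
  ∀ j ∈ E, i < j → f j ≠ f i

/-- an earlier element of the block is not higher -/
def Bt {n : ℕ} (P : Fin n → ℝ × ℝ) (E : Finset (Fin n)) (f : Fin n → ℕ) (i : Fin n) : Prop :=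
  ∃ j ∈ E, j < i ∧ f j = f i ∧ (P j).2 ≤ (P i).2

/-- SWP (sweep): the three bits per point determine the partition. -/
def stmt_SWP : Prop :=
  ∀ (n : ℕ) (P : Fin n → ℝ × ℝ), Srt P → ∀ (E : Finset (Fin n)) (f g : Fin n → ℕ)
    (Q Q' : ℕ → Bx), (∀ a b, a ≠ b → Dj (Q a) (Q b)) → (∀ a b, a ≠ b → Dj (Q' a) (Q' b)) →
    (∀ i ∈ E, In (Q (f i)) (P i).1 (P i).2) → (∀ i ∈ E, In (Q' (g i)) (P i).1 (P i).2) →
    (∀ i ∈ E, (Fst E f i ↔ Fst E g i) ∧ (Lst E f i ↔ Lst E g i) ∧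
      (Bt P E f i ↔ Bt P E g i)) →
    ∀ i ∈ E, ∀ j ∈ E, (f i = f j ↔ g i = g j)

/-- `I` is the index set of the points in `M` pairwise disjoint boxes, each with a point -/
def IsPack {n : ℕ} (P : Fin n → ℝ × ℝ) (M : ℕ) (I : Finset (Fin n)) : Prop :=
  ∃ Q : Fin M → Bx, (∀ a b, a ≠ b → Dj (Q a) (Q b)) ∧ (∀ a, (inds P (Q a)).Nonempty) ∧
    ∀ i, i ∈ I ↔ ∃ a, i ∈ inds P (Q a)

/-- CNT: number of packings. -/
def stmt_CNT : Prop :=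
  ∀ (n M : ℕ) (P : Fin n → ℝ × ℝ), Srt P →
    (fl (univ : Finset (Finset (Fin n))) (fun I => IsPack P M I)).card ≤
      ∑ j ∈ range (4 * M + 1), n.choose j * 8 ^ j

/-- TAIL: lower tail of a random subset. -/
def stmt_TAIL : Prop :=
  ∀ (n : ℕ) (I : Finset (Fin n)) (ε : ℝ), 0 ≤ ε → ε ≤ 1 →
    ((fl (univ : Finset (Finset (Fin n)))
      (fun B => ((B ∩ I).card : ℝ) ≤ (1 - ε) * I.card / 2)).card : ℝ) ≤
      2 ^ n * Real.exp (-(ε ^ 2 * I.card / 2))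

/-- CHO: sum of binomials. -/
def stmt_CHO : Prop :=
  ∀ n J : ℕ, 1 ≤ J → J ≤ n →
    ((∑ j ∈ range (J + 1), n.choose j * 8 ^ j : ℕ) : ℝ) ≤
      (8 * Real.exp 1 * n / J) ^ J

/-- HALV (halving lemma). -/
def stmt_HALV : Prop :=
  ∀ (n M κ : ℕ) (P : Fin n → ℝ × ℝ) (ε : ℝ), Srt P → 0 < ε → ε ≤ 1 → 1 ≤ M → 1 ≤ κ →
    ((∑ j ∈ range (4 * M + 1), n.choose j * 8 ^ j : ℕ) : ℝ) *
      Real.exp (-(ε ^ 2 * (M * κ) / 2)) < 1 / 2 →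
    ∃ B : Finset (Fin n), 2 * B.card ≤ n ∧
      ¬ ∃ Q : Fin M → Bx, (∀ a b, a ≠ b → Dj (Q a) (Q b)) ∧
        ∀ a, κ ≤ (inds P (Q a)).card ∧ (((inds P (Q a)) ∩ B).card : ℝ) < (1 - ε) * κ / 2

/-! ### Part III: nets -/

/-- for every multiset of `n` points and every `k` with `n / k ≤ μ` at most `F n / k` points
hit all boxes with at least `k` points -/
def Nets (F μ : ℝ) : Prop :=
  ∀ (n k : ℕ) (P : Fin n → ℝ × ℝ), 1 ≤ k → (n : ℝ) ≤ μ * k →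
    ∃ Z : Finset (ℝ × ℝ), (Z.card : ℝ) ≤ F * (n / k) ∧
      ∀ R : Bx, k ≤ (inds P R).card → ∃ z ∈ Z, In R z.1 z.2

/-- SORT: sorting the points. -/
def stmt_SORT : Prop :=
  ∀ (n : ℕ) (P : Fin n → ℝ × ℝ), ∃ σ : Equiv.Perm (Fin n), Srt (P ∘ σ) ∧
    ∀ R : Bx, (inds (P ∘ σ) R).card = (inds P R).card

/-- GRID: trivial nets. -/
def stmt_GRID : Prop := ∀ μ : ℝ, 0 ≤ μ → Nets μ μ

/-- MWU: multiplicative weights. -/
def stmt_MWU : Prop :=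
  ∀ F μ T : ℝ, 0 ≤ F → 1 ≤ T → T ≤ μ → Nets F μ → ∀ W : Set Bx,
    (¬ ∃ Z : Finset (ℝ × ℝ), (Z.card : ℝ) ≤ F * T ∧ ∀ R ∈ W, ∃ z ∈ Z, In R z.1 z.2) →
    ∀ G : Finset (ℝ × ℝ), G.Nonempty → ∀ t : ℕ, ∃ R : Fin t → Bx, (∀ i, R i ∈ W) ∧
      ∑ p ∈ G, (2 : ℝ) ^ ((fl univ (fun i => In (R i) p.1 p.2)).card) ≤
        G.card * (1 + 1 / T) ^ t

/-- GAP: piercing number against packing number. -/
def stmt_GAP : Prop :=
  ∀ F μ : ℝ, 0 ≤ F → Nets F μ → ∀ (c w : ℕ) (L : ℝ), DB w c → 1 ≤ c → 1 ≤ L → 5 * L ≤ w →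
    (w : ℝ) ≤ 6 * L → ∀ (n κ : ℕ) (P : Fin n → ℝ × ℝ), 1 ≤ κ → (n : ℝ) ≤ μ * κ →
    2 * Real.log n ≤ L → ∀ p : Finset (Fin n) → Prop, (∀ I, p I → κ ≤ I.card) →
    ∀ ν : ℕ, 1 ≤ ν →
    (∀ Q : Fin (ν + 1) → Bx, (∀ a b, a ≠ b → Dj (Q a) (Q b)) → ∃ a, ¬ p (inds P (Q a))) →
    ∃ Z : Finset (ℝ × ℝ), (Z.card : ℝ) ≤ 12 * F * c * ν ∧
      ∀ R : Bx, p (inds P R) → ∃ z ∈ Z, In R z.1 z.2

/-- PARA: parameters of the union bound. -/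
def stmt_PARA : Prop :=
  ∃ K : ℝ, 1 ≤ K ∧ ∀ (k0 : ℝ) (n κ M : ℕ), K ≤ k0 → k0 ≤ κ → 1 ≤ M → M * κ ≤ n →
    Real.exp (-(Real.sqrt (k0 * κ) / 2 ^ 15)) * (n / κ) ≤ M →
    ((∑ j ∈ range (4 * M + 1), n.choose j * 8 ^ j : ℕ) : ℝ) *
      Real.exp (-(M * (Real.sqrt (k0 * κ) / 2048))) < 1 / 2

/-- PARB: parameters of the gap. -/
def stmt_PARB : Prop :=
  ∀ C : ℕ, 1 ≤ C → ∃ K : ℝ, 1 ≤ K ∧ ∀ (F μ k0 : ℝ) (n κ : ℕ), 1 ≤ F → 1 ≤ μ → K ≤ k0 →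
    k0 ≤ κ → K * Real.log F ≤ k0 → K * Real.log (1 + Real.log μ) ≤ k0 ^ 2 → 1 ≤ n →
    (n : ℝ) ≤ 4 * μ * κ →
    ∃ (lam j w : ℕ) (L : ℝ), 32 ≤ lam ∧ w * 16 ^ j ≤ lam ^ (j + 1) ∧ 1 ≤ L ∧ 5 * L ≤ w ∧
      (w : ℝ) ≤ 6 * L ∧ 2 * Real.log n ≤ L ∧
      12 * F * (C * 64 ^ j * lam ^ 3) * Real.exp (-(Real.sqrt (k0 * κ) / 2 ^ 15)) ≤
        k0 * Real.sqrt (Real.sqrt (k0 / κ)) / 8

/-- PARC: the potential `2 - (k0 / κ)^(1/4)`. -/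
def stmt_PARC : Prop :=
  ∀ (k0 κ κ' θ θ' : ℝ), 1000 ≤ k0 → 2 * k0 ≤ κ → κ' ≤ κ / 2 + 1 →
    (1 - θ / 32) * κ / 2 ≤ κ' → θ = Real.sqrt (Real.sqrt (k0 / κ)) →
    θ' = Real.sqrt (Real.sqrt (k0 / κ')) →
    0 < θ ∧ θ ≤ 1 ∧ 0 ≤ 2 - θ' ∧ 2 - θ' ≤ (1 - θ / 32) * (2 - (11 / 10) * θ) ∧
      31 / 32 * k0 ≤ κ' ∧ κ' < κ

/-- ONE: one step of the bootstrap. -/
def stmt_ONE : Prop :=
  ∃ K : ℝ, 1 ≤ K ∧ ∀ F μ k0 : ℝ, 1 ≤ F → 1 ≤ μ → K ≤ k0 → K * Real.log F ≤ k0 →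
    K * Real.log (1 + Real.log μ) ≤ k0 ^ 2 → Nets F (2 * μ) → Nets (6 * k0) μ

/-- BOOT: the bound for multisets. -/
def stmt_BOOT : Prop :=
  ∃ C : ℝ, 0 < C ∧ ∀ μ : ℝ, 1 ≤ μ →
    Nets (C * (1 + Real.sqrt (Real.log (1 + Real.log μ)))) μ

/-- FIN: the final theorem. -/
def stmt_FIN : Prop :=
  ∃ C : ℝ, 0 < C ∧ ∀ (k : ℕ), 1 ≤ k → ∀ A : Finset (ℝ × ℝ), ∃ A' : Finset (ℝ × ℝ),
    (A'.card : ℝ) ≤ C * (A.card / k) *
      (1 + Real.sqrt (Real.log (1 + Real.log (1 + A.card / k)))) ∧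
    ∀ a₁ b₁ a₂ b₂ : ℝ,
      k ≤ (fl A (fun p => a₁ ≤ p.1 ∧ p.1 ≤ b₁ ∧ a₂ ≤ p.2 ∧ p.2 ≤ b₂)).card →
      ∃ p ∈ A', a₁ ≤ p.1 ∧ p.1 ≤ b₁ ∧ a₂ ≤ p.2 ∧ p.2 ≤ b₂

end Wn
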