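import Pool.Agent.Work.MP_959bfa_wn.Interface

/-!
MP_959bfa_co: improved Part I (a family of depth `w` has `|J| / (C w (log w)^2)` pairwise
disjoint members) and the statements of the final part for the bound
`C * (n / k) * (1 + log (1 + log (1 + log (1 + n / k))))`.
The blocks CASEG, CASEL, THB, PARB, ONE, BOOT, FIN of the first file are replaced by
GRP, CRC, LRC, IND, THC, PARB2, ONE2, BOOT2, FIN2.
-/

namespace Wn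

open Finset

/-- the largest `h` with `QH h i` -/
noncomputable def eta {ι : Type} (R : ι → Bx) (J : Finset ι) (i : ι) : ℕ := by
  classical exact Nat.findGreatest (fun h => QH R J h i) J.card

/-- GRP: the members of slack at most `s` in one block of `eta` have depth at most `8 s`. -/
def stmt_GRP : Prop :=
  ∀ (ι : Type) (R : ι → Bx) (J : Finset ι) (s σ u : ℕ), (∀ i ∈ J, Ne (R i)) →
    1 ≤ σ → σ ≤ s →
    DepthLe R (fl J (fun i => Sm R J s i ∧ eta R J i / σ = u)) (8 * s)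

/-- CRC: number of crossing pairs in blocks of `eta` (slack larger than `s'`). -/
def stmt_CRC : Prop :=
  ∀ (ι : Type) (R : ι → Bx) (J : Finset ι) (w s' σ : ℕ), (∀ i ∈ J, Ne (R i)) →
    (∀ i ∈ J, (fl J (fun j => Nb R i j)).card ≤ 16 * w) → 1 ≤ σ → 2 * σ ≤ s' + 2 →
    (fl (J ×ˢ J) (fun p => Cr R p.1 p.2 ∧ ¬ Sm R J s' p.2 ∧
      eta R J p.1 / σ = eta R J p.2 / σ)).card * σ ≤ J.card * (16 * w) ^ 2

/-- LRC: members crossed by about the same number of members of `B`. -/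
def stmt_LRC : Prop :=
  ∀ (ι : Type) (R : ι → Bx) (B F : Finset ι) (s a : ℕ), F ⊆ B → (∀ i ∈ B, Ne (R i)) →
    DepthLe R B s →
    (∀ i ∈ F, a ≤ (fl B (fun v => Cr R v i)).card ∧ (fl B (fun v => Cr R v i)).card < 2 * a) →
    ∀ i ∈ F, (fl F (fun j => Cr R j i)).card ≤ s

/-- IND: greedy choice. -/
def stmt_IND : Prop :=
  ∀ (ι : Type) (R : ι → Bx) (F : Finset ι) (s : ℕ), 1 ≤ s → (∀ i ∈ F, Ne (R i)) →
    DepthLe R F (8 * s) → (∀ i ∈ F, (fl F (fun j => Cr R j i)).card ≤ 8 * s) →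
    ∃ T : Finset ι, T ⊆ F ∧ Indep R T ∧ F.card ≤ 400 * s * T.card

/-- THC: disjoint subfamilies of families of bounded depth. -/
def stmt_THC : Prop :=
  ∃ C : ℕ, 1 ≤ C ∧ ∀ w : ℕ, DB w (C * (Nat.log 2 w + 1) ^ 2)

/-- PARB2: parameters of the gap. -/
def stmt_PARB2 : Prop :=
  ∀ C : ℕ, 1 ≤ C → ∃ K : ℝ, 1 ≤ K ∧ ∀ (F μ k0 : ℝ) (n κ : ℕ), 1 ≤ F → 1 ≤ μ → K ≤ k0 →
    k0 ≤ κ → K * Real.log F ≤ k0 → K * Real.log (1 + Real.log (1 + Real.log μ)) ≤ k0 →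
    1 ≤ n → (n : ℝ) ≤ 4 * μ * κ →
    ∃ (w : ℕ) (L : ℝ), 1 ≤ L ∧ 5 * L ≤ w ∧ (w : ℝ) ≤ 6 * L ∧ 2 * Real.log n ≤ L ∧
      12 * F * (C * (Nat.log 2 w + 1) ^ 2 : ℕ) * Real.exp (-(Real.sqrt (k0 * κ) / 2 ^ 15)) ≤
        k0 * Real.sqrt (Real.sqrt (k0 / κ)) / 8

/-- ONE2: one step of the bootstrap. -/
def stmt_ONE2 : Prop :=
  ∃ K : ℝ, 1 ≤ K ∧ ∀ F μ k0 : ℝ, 1 ≤ F → 1 ≤ μ → K ≤ k0 → K * Real.log F ≤ k0 →
    K * Real.log (1 + Real.log (1 + Real.log μ)) ≤ k0 → Nets F (2 * μ) → Nets (6 * k0) μ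

/-- BOOT2: the bound for multisets. -/
def stmt_BOOT2 : Prop :=
  ∃ C : ℝ, 0 < C ∧ ∀ μ : ℝ, 1 ≤ μ →
    Nets (C * (1 + Real.log (1 + Real.log (1 + Real.log μ)))) μ

/-- FIN2: the final theorem. -/
def stmt_FIN2 : Prop :=
  ∃ C : ℝ, 0 < C ∧ ∀ (k : ℕ), 1 ≤ k → ∀ A : Finset (ℝ × ℝ), ∃ A' : Finset (ℝ × ℝ),
    (A'.card : ℝ) ≤ C * (A.card / k) *
      (1 + Real.log (1 + Real.log (1 + Real.log (1 + A.card / k)))) ∧
    ∀ a₁ b₁ a₂ b₂ : ℝ,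
      k ≤ (fl A (fun p => a₁ ≤ p.1 ∧ p.1 ≤ b₁ ∧ a₂ ≤ p.2 ∧ p.2 ≤ b₂)).card →
      ∃ p ∈ A', a₁ ≤ p.1 ∧ p.1 ≤ b₁ ∧ a₂ ≤ p.2 ∧ p.2 ≤ b₂

end Wn
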