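import Pool.Agent.Work.MP_959bfa_wn.Interface2

/-!
MP_959bfa_co: from `α ω ≥ c n` for families of rectangles (with nonempty interior) to the
statements `DB w C`.
-/

namespace Wn

open Finset

/-- the statement of Q1 of MP_62ed42_co -/
def AlphaOmega : Prop :=
  ∃ c : ℝ, 0 < c ∧
      ∀ (n : ℕ) (x₁ x₂ y₁ y₂ : Fin n → ℝ),
        (∀ i, x₁ i < x₂ i ∧ y₁ i < y₂ i) →
        ∃ S T : Finset (Fin n),
          (∀ i ∈ S, ∀ j ∈ S, i ≠ j →
            Disjoint (Set.Icc (x₁ i) (x₂ i) ×ˢ Set.Icc (y₁ i) (y₂ i))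
                     (Set.Icc (x₁ j) (x₂ j) ×ˢ Set.Icc (y₁ j) (y₂ j))) ∧
          (∃ p : ℝ × ℝ, ∀ i ∈ T, p ∈ Set.Icc (x₁ i) (x₂ i) ×ˢ Set.Icc (y₁ i) (y₂ i)) ∧
          c * (n : ℝ) ≤ (S.card : ℝ) * (T.card : ℝ)

/-- a number smaller than all positive gaps -/
theorem exists_gap {ι : Type} (J : Finset ι) (f g : ι → ℝ) :
    ∃ d : ℝ, 0 < d ∧ ∀ i ∈ J, ∀ j ∈ J, f i < g j → f i + d < g j - d := by
  have h : ∀ᶠ d : ℝ in nhdsWithin 0 (Set.Ioi 0), ∀ i ∈ J, ∀ j ∈ J, f i < g j →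
      f i + d < g j - d := by
    rw [Filter.eventually_all_finset]
    intro i _
    rw [Filter.eventually_all_finset]
    intro j _
    by_cases hij : f i < g j
    · have h1 : Set.Ioo (0 : ℝ) ((g j - f i) / 2) ∈ nhdsWithin 0 (Set.Ioi 0) :=
        Ioo_mem_nhdsGT (by linarith)
      filter_upwards [h1] with d hd _
      have := hd.2
      linarith
    · exact Filter.Eventually.of_forall (fun d h => absurd h hij)
  have h2 : ∀ᶠ d : ℝ in nhdsWithin 0 (Set.Ioi 0), 0 < d := self_mem_nhdsWithin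
  obtain ⟨d, hd1, hd2⟩ := (h.and h2).exists
  exact ⟨d, hd2, hd1⟩

theorem not_dj {R S : Bx} (h1 : R.l ≤ S.r) (h2 : S.l ≤ R.r) (h3 : R.b ≤ S.t) (h4 : S.b ≤ R.t)
    (hR : Ne R) (hS : Ne S) : ¬ Dj R S := by
  intro h
  refine h (max R.l S.l) (max R.b S.b) ⟨⟨le_max_left _ _, max_le hR.1 h2, le_max_left _ _,
    max_le hR.2 h4⟩, ⟨le_max_right _ _, max_le h1 hS.1, le_max_right _ _, max_le h3 hS.2⟩⟩

theorem db_of_alpha (h : AlphaOmega) : ∃ c : ℕ, 1 ≤ c ∧ ∀ w, DB w c := by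
  classical
  obtain ⟨c, hc, h⟩ := h
  refine ⟨⌈1 / c⌉₊, Nat.ceil_pos.2 (by positivity), ?_⟩
  intro w ι R J hne hw
  obtain ⟨d1, hd1, hx⟩ := exists_gap J (fun i => (R i).r) (fun i => (R i).l)
  obtain ⟨d2, hd2, hy⟩ := exists_gap J (fun i => (R i).t) (fun i => (R i).b)
  obtain ⟨e, he⟩ : ∃ e : Fin J.card ≃ J, e = J.equivFin.symm := ⟨_, rfl⟩
  obtain ⟨S, T, hS, ⟨p, hT⟩, hST⟩ := h J.card (fun i => (R (e i)).l - d1)
    (fun i => (R (e i)).r + d1) (fun i => (R (e i)).b - d2) (fun i => (R (e i)).t + d2)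
    (fun i => by
      have h1 := (hne (e i) (e i).2).1
      have h2 := (hne (e i) (e i).2).2
      exact ⟨by linarith, by linarith⟩)
  have hinj : Function.Injective (fun i : Fin J.card => ((e i : J) : ι)) :=
    fun i j hij => e.injective (Subtype.ext hij)
  -- the clique
  have hTw : T.card ≤ w := by
    rcases T.eq_empty_or_nonempty with h0 | h0
    · simp [h0]
    · obtain ⟨i1, hi1, hm1⟩ := T.exists_max_image (fun i => (R (e i)).l) h0
      obtain ⟨i2, hi2, hm2⟩ := T.exists_max_image (fun i => (R (e i)).b) h0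
      have hmeet : ∀ i ∈ T, ∀ j ∈ T, (R (e i)).l ≤ (R (e j)).r ∧ (R (e i)).b ≤ (R (e j)).t := by
        intro i hi j hj
        have a1 := hT i hi
        have a2 := hT j hj
        simp only [Set.mem_prod, Set.mem_Icc] at a1 a2
        constructor
        · by_contra hcon
          push Not at hcon
          have := hx (e j) (e j).2 (e i) (e i).2 hcon
          linarith
        · by_contra hcon
          push Not at hcon
          have := hy (e j) (e j).2 (e i) (e i).2 hcon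
          linarith
      calc T.card = (T.image (fun i : Fin J.card => ((e i : J) : ι))).card :=
            (card_image_of_injective T hinj).symm
        _ ≤ (fl J (fun j => In (R j) (R (e i1)).l (R (e i2)).b)).card := by
            apply card_le_card
            intro k hk
            obtain ⟨i, hi, rfl⟩ := mem_image.1 hk
            exact mem_fl.2 ⟨(e i).2, hm1 i hi, (hmeet i1 hi1 i hi).1, hm2 i hi,
              (hmeet i2 hi2 i hi).2⟩
        _ ≤ w := hw _ _
  refine ⟨S.image (fun i : Fin J.card => ((e i : J) : ι)), ?_, ?_, ?_⟩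
  · intro k hk
    obtain ⟨i, hi, rfl⟩ := mem_image.1 hk
    exact (e i).2
  · intro k hk l hl hkl
    obtain ⟨i, hi, rfl⟩ := mem_image.1 hk
    obtain ⟨j, hj, rfl⟩ := mem_image.1 hl
    have h1 := hS i hi j hj (fun h => hkl (by rw [h]))
    rw [Set.disjoint_left] at h1
    rintro x y ⟨⟨a1, a2, a3, a4⟩, ⟨b1, b2, b3, b4⟩⟩
    refine h1 (a := (x, y)) ?_ ?_
    · simp only [Set.mem_prod, Set.mem_Icc]
      exact ⟨⟨by linarith, by linarith⟩, ⟨by linarith, by linarith⟩⟩
    · simp only [Set.mem_prod, Set.mem_Icc]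
      exact ⟨⟨by linarith, by linarith⟩, ⟨by linarith, by linarith⟩⟩
  · rw [card_image_of_injective S hinj]
    have h1 : (J.card : ℝ) ≤ 1 / c * ((S.card : ℝ) * T.card) := by
      rw [div_mul_eq_mul_div, one_mul, le_div_iff₀ hc]
      linarith
    have h2 : (S.card : ℝ) * T.card ≤ S.card * w := by
      apply mul_le_mul_of_nonneg_left _ (Nat.cast_nonneg _)
      exact_mod_cast hTw
    have h3 : (1 / c : ℝ) ≤ ⌈1 / c⌉₊ := Nat.le_ceil _
    have h4 : (J.card : ℝ) ≤ ⌈1 / c⌉₊ * (S.card * w) := by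
      refine h1.trans ?_
      exact mul_le_mul h3 h2 (by positivity) (by positivity)
    have h5 : J.card ≤ ⌈1 / c⌉₊ * (S.card * w) := by exact_mod_cast h4
    calc J.card ≤ ⌈1 / c⌉₊ * (S.card * w) := h5
      _ = ⌈1 / c⌉₊ * w * S.card := by ring

end Wn
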