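import Pool.Agent.Work.MP_959bfa_wn_helper64.ONE2
import Pool.Agent.Work.MP_959bfa_wn_helper17.BOOT2

/-!
MP_959bfa_co: the conditional part.  If every family of depth at most `w` has a pairwise
disjoint subfamily of at least `|J| / (c w)` members, with `c` independent of `w`, then there are
weak nets of linear size.
-/

namespace Wn

open Finset

/-- one step of the bootstrap when the constant of `DB` does not depend on `w` -/
theorem one_const (hSORT : stmt_SORT) (hHALV : stmt_HALV) (hGAP : stmt_GAP)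
    (hPARA : stmt_PARA) (hPARC : stmt_PARC) (c : ℕ) (hc : 1 ≤ c) (hDB : ∀ w, DB w c) :
    ∃ K : ℝ, 1 ≤ K ∧ ∀ F μ k0 : ℝ, 1 ≤ F → 1 ≤ μ → K ≤ k0 → K * Real.log F ≤ k0 →
      Nets F (2 * μ) → Nets (6 * k0) μ := by
  obtain ⟨K1, hK1, hA⟩ := hPARA
  have hcr : (1 : ℝ) ≤ c := by exact_mod_cast hc
  refine ⟨K1 + 2 ^ 60 * c, by nlinarith [show (0 : ℝ) < 2 ^ 60 by norm_num], ?_⟩
  intro F μ k0 hF hμ hk0 hFk hN
  have hKc : (2 : ℝ) ^ 60 ≤ 2 ^ 60 * c := by nlinarith [show (0 : ℝ) < 2 ^ 60 by norm_num]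
  have hk1 : K1 ≤ k0 := by linarith
  have hk2 : 2 ^ 60 * (c : ℝ) ≤ k0 := by linarith
  have hk60 : (2 : ℝ) ^ 60 ≤ k0 := hKc.trans hk2
  have hk3 : 1000 ≤ k0 := le_trans (by norm_num) hk60
  have hk0pos : 0 < k0 := by linarith
  have hlF : 0 ≤ Real.log F := Real.log_nonneg hF
  have hFk2 : 2 ^ 60 * Real.log F ≤ k0 := by
    refine le_trans ?_ hFk
    apply mul_le_mul_of_nonneg_right _ hlF
    linarith
  have claim := one_claim hSORT hHALV hGAP hPARC F μ k0 hF hμ hk3
    (fun n κ M h1 h2 h3 h4 => hA k0 n κ M hk1 h1 h2 h3 h4)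
    (fun n κ h1 h2 h3 => by
      obtain ⟨L, hL⟩ : ∃ L : ℝ, L = max 1 (2 * Real.log n) := ⟨_, rfl⟩
      have hL1 : 1 ≤ L := by rw [hL]; exact le_max_left _ _
      have hLn : 2 * Real.log n ≤ L := by rw [hL]; exact le_max_right _ _
      refine ⟨c, ⌈5 * L⌉₊, L, hDB _, hc, hL1, Nat.le_ceil _, ?_, hLn, ?_⟩
      · have h4 := Nat.ceil_lt_add_one (show 0 ≤ 5 * L by linarith)
        linarith
      · have hκ0 : (0 : ℝ) < κ := by linarith
        obtain ⟨r, hr⟩ : ∃ r : ℝ, r = Real.sqrt (k0 * κ) := ⟨_, rfl⟩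
        have hr2 : r ^ 2 = k0 * κ := by rw [hr]; exact Real.sq_sqrt (by positivity)
        have hkr : k0 ≤ r := by
          rw [hr]
          refine Real.le_sqrt_of_sq_le ?_
          nlinarith
        have hr1 : (2 : ℝ) ^ 60 ≤ r := hk60.trans hkr
        have hrp : 0 < r := lt_of_lt_of_le (by norm_num) hr1
        rw [← hr]
        have hright : 1 / r / 8 ≤ k0 * Real.sqrt (Real.sqrt (k0 / κ)) / 8 := by
          have g1 : (1 : ℝ) ≤ r := le_trans (by norm_num) hr1
          have g0 : (1 : ℝ) ≤ k0 := by linarith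
          have g2 : 1 / r ≤ Real.sqrt (k0 / κ) := by
            refine Real.le_sqrt_of_sq_le ?_
            rw [div_pow, one_pow, hr2, div_le_div_iff₀ (by positivity) hκ0]
            nlinarith
          have g3 : 1 / r ≤ Real.sqrt (Real.sqrt (k0 / κ)) := by
            refine Real.le_sqrt_of_sq_le (le_trans ?_ g2)
            have g4 : 1 / r ≤ 1 := by
              rw [div_le_one hrp]
              exact g1
            have g5 : 0 ≤ 1 / r := by positivity
            nlinarith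
          have g4 : 1 * (1 / r) ≤ k0 * Real.sqrt (Real.sqrt (k0 / κ)) :=
            mul_le_mul g0 g3 (by positivity) hk0pos.le
          linarith
        refine le_trans ?_ hright
        have hFe : F ≤ Real.exp (r / 2 ^ 60) := by
          have h5 : Real.log F ≤ r / 2 ^ 60 := by
            rw [le_div_iff₀ (by norm_num)]
            linarith
          calc F = Real.exp (Real.log F) := (Real.exp_log (by linarith)).symm
            _ ≤ _ := Real.exp_le_exp.2 h5
        have h6 : 12 * F * (c : ℝ) * Real.exp (-(r / 2 ^ 15)) ≤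
            12 * c * Real.exp (-(r / 2 ^ 16)) := by
          have h7 : Real.exp (r / 2 ^ 60) * Real.exp (-(r / 2 ^ 15)) ≤
              Real.exp (-(r / 2 ^ 16)) := by
            rw [← Real.exp_add]
            apply Real.exp_le_exp.2
            have e1 : r / 2 ^ 60 ≤ r / 2 ^ 16 :=
              div_le_div_of_nonneg_left hrp.le (by norm_num) (by norm_num)
            have e2 : r / 2 ^ 15 = 2 * (r / 2 ^ 16) := by ring
            rw [e2]
            linarith
          calc 12 * F * (c : ℝ) * Real.exp (-(r / 2 ^ 15))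
              ≤ 12 * Real.exp (r / 2 ^ 60) * (c : ℝ) * Real.exp (-(r / 2 ^ 15)) := by
                apply mul_le_mul_of_nonneg_right _ (Real.exp_pos _).le
                apply mul_le_mul_of_nonneg_right _ (by linarith)
                linarith
            _ = 12 * c * (Real.exp (r / 2 ^ 60) * Real.exp (-(r / 2 ^ 15))) := by ring
            _ ≤ 12 * c * Real.exp (-(r / 2 ^ 16)) :=
                mul_le_mul_of_nonneg_left h7 (by positivity)
        refine h6.trans ?_
        have hx : (r / 2 ^ 16) ^ 2 / 2 ≤ Real.exp (r / 2 ^ 16) := by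
          have := Real.quadratic_le_exp_of_nonneg (show 0 ≤ r / 2 ^ 16 by positivity)
          have h2 : 0 ≤ r / 2 ^ 16 := by positivity
          linarith
        rw [Real.exp_neg, ← div_eq_mul_inv, div_le_iff₀ (Real.exp_pos _), div_div,
          ← mul_div_right_comm, one_mul, le_div_iff₀ (by positivity)]
        have h3 : 12 * (c : ℝ) * (r * 8) ≤ (r / 2 ^ 16) ^ 2 / 2 := by
          have e1 : (r / 2 ^ 16) ^ 2 / 2 = r * (r / 2 ^ 33) := by ring
          have e2 : 12 * (c : ℝ) * (r * 8) = r * (96 * c) := by ring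
          rw [e1, e2]
          refine mul_le_mul_of_nonneg_left ?_ hrp.le
          rw [le_div_iff₀ (by norm_num)]
          refine le_trans ?_ (hk2.trans hkr)
          nlinarith
        exact h3.trans hx) hN
  intro n k P hk hn
  have hkpos : (0 : ℝ) < k := by exact_mod_cast hk
  have hnn : (0 : ℝ) ≤ n := Nat.cast_nonneg n
  by_cases hbig : 31 / 32 * k0 ≤ k
  · have hth : 0 ≤ Real.sqrt (Real.sqrt (k0 / k)) := Real.sqrt_nonneg _
    obtain ⟨Z, hZ1, hZ2⟩ := claim k n P hbig (by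
      have h1 : (n : ℝ) * (2 - Real.sqrt (Real.sqrt (k0 / k))) ≤ n * 2 :=
        mul_le_mul_of_nonneg_left (by linarith) hnn
      linarith)
    refine ⟨Z, hZ1.trans ?_, hZ2⟩
    apply mul_le_mul_of_nonneg_right _ (div_nonneg hnn hkpos.le)
    have h2 : 5 / 2 * k0 * (2 - Real.sqrt (Real.sqrt (k0 / k))) ≤ 5 / 2 * k0 * 2 :=
      mul_le_mul_of_nonneg_left (by linarith) (by linarith)
    linarith
  · push Not at hbig
    obtain ⟨Z, hZ1, hZ2⟩ := one_all P
    refine ⟨Z, ?_, fun R hR => hZ2 R (hk.trans hR)⟩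
    have h1 : (Z.card : ℝ) ≤ n := by exact_mod_cast hZ1
    refine h1.trans ?_
    rw [← mul_div_assoc, le_div_iff₀ hkpos]
    have h2 : (n : ℝ) * k ≤ n * (6 * k0) := mul_le_mul_of_nonneg_left (by linarith) hnn
    linarith

/-- iterating the step -/
theorem boot_const (hGRID : stmt_GRID) (K : ℝ) (hK : 1 ≤ K)
    (hstep : ∀ F μ k0 : ℝ, 1 ≤ F → 1 ≤ μ → K ≤ k0 → K * Real.log F ≤ k0 →
      Nets F (2 * μ) → Nets (6 * k0) μ) :
    ∃ X : ℝ, 1 ≤ X ∧ ∀ μ : ℝ, 1 ≤ μ → Nets X μ := by
  -- `6 K (1 + log y) ≤ y / 4` for `y ≥ X`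
  refine ⟨2304 * K ^ 2, by nlinarith, ?_⟩
  have hX : ∀ y : ℝ, 2304 * K ^ 2 ≤ y → 6 * (K * (1 + Real.log y)) ≤ y / 4 := by
    intro y hy
    have hy1 : (0 : ℝ) < y := by nlinarith
    obtain ⟨s, hs⟩ : ∃ s : ℝ, s = Real.sqrt y := ⟨_, rfl⟩
    have hs2 : s ^ 2 = y := by rw [hs]; exact Real.sq_sqrt hy1.le
    have hs0 : 0 < s := by rw [hs]; exact Real.sqrt_pos.2 hy1
    have hsK : 48 * K ≤ s := by
      rw [hs]
      refine Real.le_sqrt_of_sq_le ?_
      nlinarith
    have hl : Real.log y = 2 * Real.log s := by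
      rw [← hs2, Real.log_pow]
      norm_num
    have hl2 := Real.log_le_sub_one_of_pos hs0
    have h1 : 1 + Real.log y ≤ 2 * s := by linarith
    have h2 : K * (1 + Real.log y) ≤ K * (2 * s) := mul_le_mul_of_nonneg_left h1 (by linarith)
    nlinarith
  have key : ∀ j : ℕ, ∀ μ : ℝ, 1 ≤ μ → Nets (max (2304 * K ^ 2) (μ / 2 ^ j)) μ := by
    intro j
    induction j with
    | zero =>
      intro μ hμ
      refine B2.nets_mono ?_ (hGRID μ (by linarith))
      rw [pow_zero, div_one]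
      exact le_max_right _ _
    | succ j ih =>
      intro μ hμ
      have h1 := ih (2 * μ) (by linarith)
      obtain ⟨y, hy⟩ : ∃ y : ℝ, y = max (2304 * K ^ 2) (2 * μ / 2 ^ j) := ⟨_, rfl⟩
      rw [← hy] at h1
      have hyX : 2304 * K ^ 2 ≤ y := by rw [hy]; exact le_max_left _ _
      have hy1 : 1 ≤ y := by nlinarith
      have hly : 0 ≤ Real.log y := Real.log_nonneg hy1
      have h2 := hstep y μ (K * (1 + Real.log y)) hy1 hμ (by nlinarith) (by nlinarith) h1
      refine B2.nets_mono ?_ h2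
      refine (hX y hyX).trans ?_
      rw [hy]
      rcases le_total (2304 * K ^ 2) (2 * μ / 2 ^ j) with h3 | h3
      · rw [max_eq_right h3]
        refine le_trans (le_of_eq ?_) (le_max_right _ _)
        rw [pow_succ]
        ring
      · rw [max_eq_left h3]
        refine le_trans ?_ (le_max_left _ _)
        nlinarith
  intro μ hμ
  obtain ⟨j, hj⟩ : ∃ j : ℕ, μ ≤ 2 ^ j := by
    obtain ⟨j, hj⟩ := exists_nat_gt μ
    exact ⟨j, hj.le.trans (by exact_mod_cast Nat.lt_two_pow_self.le)⟩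
  refine B2.nets_mono ?_ (key j μ hμ)
  apply max_le le_rfl
  have h1 : μ / 2 ^ j ≤ 1 := by
    rw [div_le_one (by positivity)]
    exact hj
  nlinarith

theorem cond_nets (hSORT : stmt_SORT) (hHALV : stmt_HALV) (hGAP : stmt_GAP)
    (hPARA : stmt_PARA) (hPARC : stmt_PARC) (hGRID : stmt_GRID)
    (h : ∃ c : ℕ, 1 ≤ c ∧ ∀ w, DB w c) :
    ∃ X : ℝ, 1 ≤ X ∧ ∀ μ : ℝ, 1 ≤ μ → Nets X μ := by
  obtain ⟨c, hc, hDB⟩ := h
  obtain ⟨K, hK, hstep⟩ := one_const hSORT hHALV hGAP hPARA hPARC c hc hDB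
  exact boot_const hGRID K hK hstep

end Wn
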