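import Pool.Agent.Work.MP_959bfa_wn.Interface2
import Pool.Agent.Work.MP_959bfa_wn_helper17.BOOT2

/-!
MP_959bfa_co: from nets for multisets to nets for nonnegative weights.
-/

namespace Wn

open Finset

/-- nets for weights from nets for multisets -/
theorem weights_nets {F W : ℝ} (hF : 0 ≤ F) (hN : Nets F (2 * W)) (A : Finset (ℝ × ℝ))
    (w : ℝ × ℝ → ℝ) (hw : ∀ p ∈ A, 0 ≤ w p) (hW : ∑ p ∈ A, w p = W) :
    ∃ Z : Finset (ℝ × ℝ), (Z.card : ℝ) ≤ 2 * F * W ∧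
      ∀ R : Bx, 1 ≤ ∑ p ∈ fl A (fun p => In R p.1 p.2), w p → ∃ z ∈ Z, In R z.1 z.2 := by
  classical
  have hW0 : 0 ≤ W := by rw [← hW]; exact sum_nonneg hw
  obtain ⟨T, hT⟩ : ∃ T : ℕ, T = 2 * A.card + 1 := ⟨_, rfl⟩
  obtain ⟨k, hk⟩ : ∃ k : ℕ, k = A.card + 1 := ⟨_, rfl⟩
  have hTk : (T : ℝ) = k + A.card := by rw [hT, hk]; push_cast; ring
  have hkr : (k : ℝ) = A.card + 1 := by rw [hk]; push_cast; ring
  have hAnn : (0 : ℝ) ≤ A.card := Nat.cast_nonneg _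
  have hT2 : (T : ℝ) ≤ 2 * k := by linarith
  obtain ⟨m, hm⟩ : ∃ m : ℝ × ℝ → ℕ, m = fun p => ⌊(T : ℝ) * w p⌋₊ := ⟨_, rfl⟩
  obtain ⟨I, hI⟩ : ∃ I : Finset (Σ _ : ℝ × ℝ, ℕ), I = A.sigma (fun p => range (m p)) := ⟨_, rfl⟩
  have hIc : I.card = ∑ p ∈ A, m p := by
    rw [hI, card_sigma]
    simp
  have hn : (I.card : ℝ) ≤ T * W := by
    rw [hIc, ← hW, mul_sum]
    push_cast
    apply sum_le_sum
    intro p hp
    rw [hm]
    exact Nat.floor_le (mul_nonneg (Nat.cast_nonneg _) (hw p hp))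
  obtain ⟨P, hP⟩ : ∃ P : Fin I.card → ℝ × ℝ, P = fun i => (I.equivFin.symm i).1.1 := ⟨_, rfl⟩
  have hn2 : (I.card : ℝ) ≤ 2 * W * k := by
    have := mul_le_mul_of_nonneg_right hT2 hW0
    linarith
  obtain ⟨Z, hZ, hR⟩ := hN I.card k P (by omega) hn2
  refine ⟨Z, hZ.trans ?_, ?_⟩
  · have hk0 : (0 : ℝ) < k := by linarith
    have h1 : (I.card : ℝ) / k ≤ 2 * W := by
      rw [div_le_iff₀ hk0]
      exact hn2
    have h2 := mul_le_mul_of_nonneg_left h1 hF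
    linarith
  · intro R hwR
    apply hR R
    have h1 : (inds P R).card = ∑ p ∈ fl A (fun p => In R p.1 p.2), m p := by
      have h2 : ((fl A (fun p => In R p.1 p.2)).sigma (fun p => range (m p))).card =
          ∑ p ∈ fl A (fun p => In R p.1 p.2), m p := by
        rw [card_sigma]
        simp
      rw [← h2]
      have hmI : ∀ z ∈ I, z.1 ∈ A ∧ z.2 ∈ range (m z.1) := by
        intro z hz
        rw [hI, mem_sigma] at hz
        exact hz
      have hinj : Function.Injective (fun i : Fin I.card => (I.equivFin.symm i).1) :=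
        fun i j hij => I.equivFin.symm.injective (Subtype.ext hij)
      rw [← card_image_of_injective (inds P R) hinj]
      congr 1
      ext x
      simp only [mem_image, inds, mem_fl, mem_univ, true_and, mem_sigma, hP]
      constructor
      · rintro ⟨i, hi, rfl⟩
        have h3 := hmI _ (I.equivFin.symm i).2
        exact ⟨⟨h3.1, hi⟩, h3.2⟩
      · rintro ⟨⟨h3, h4⟩, h5⟩
        have h6 : x ∈ I := by
          rw [hI, mem_sigma]
          exact ⟨h3, h5⟩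
        exact ⟨I.equivFin ⟨x, h6⟩, by simpa using h4, by simp⟩
    rw [h1]
    have h2 : (T : ℝ) * 1 - A.card ≤ ((∑ p ∈ fl A (fun p => In R p.1 p.2), m p : ℕ) : ℝ) := by
      have h3 : (T : ℝ) * (∑ p ∈ fl A (fun p => In R p.1 p.2), w p) -
          (fl A (fun p => In R p.1 p.2)).card ≤
          ((∑ p ∈ fl A (fun p => In R p.1 p.2), m p : ℕ) : ℝ) := by
        rw [mul_sum]
        push_cast
        have e1 : ((fl A (fun p => In R p.1 p.2)).card : ℝ) =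
            ∑ _p ∈ fl A (fun p => In R p.1 p.2), (1 : ℝ) := by
          rw [sum_const, nsmul_eq_mul, mul_one]
        rw [sub_le_iff_le_add, e1, ← sum_add_distrib]
        apply sum_le_sum
        intro p hp
        rw [hm]
        exact (Nat.lt_floor_add_one _).le
      have h4 : ((fl A (fun p => In R p.1 p.2)).card : ℝ) ≤ A.card := by
        exact_mod_cast card_le_card (fl_subset _ _)
      have h5 : (T : ℝ) * 1 ≤ T * (∑ p ∈ fl A (fun p => In R p.1 p.2), w p) :=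
        mul_le_mul_of_nonneg_left hwR (Nat.cast_nonneg _)
      linarith
    have h6 : (k : ℝ) ≤ ((∑ p ∈ fl A (fun p => In R p.1 p.2), m p : ℕ) : ℝ) := by
      linarith
    exact_mod_cast h6

theorem fl_Icc_sum (A : Finset (ℝ × ℝ)) (w : ℝ × ℝ → ℝ) (a b : ℝ × ℝ) (S : Finset (ℝ × ℝ))
    (hS : ∀ p, p ∈ S ↔ p ∈ A ∧ p ∈ Set.Icc a b) :
    ∑ p ∈ fl A (fun p => In ⟨a.1, b.1, a.2, b.2⟩ p.1 p.2), w p = ∑ p ∈ S, w p := by
  congr 1
  ext p
  rw [mem_fl, hS]
  simp only [In, Set.mem_Icc, Prod.le_def]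
  constructor
  · rintro ⟨h0, h1, h2, h3, h4⟩
    exact ⟨h0, ⟨h1, h3⟩, ⟨h2, h4⟩⟩
  · rintro ⟨h0, ⟨h1, h3⟩, ⟨h2, h4⟩⟩
    exact ⟨h0, h1, h2, h3, h4⟩

/-- the weighted form of the theorem -/
theorem weights_final (h : stmt_BOOT2) :
    ∃ C : ℝ, 0 < C ∧ ∀ (A : Finset (ℝ × ℝ)) (w : ℝ × ℝ → ℝ), (∀ p ∈ A, 0 ≤ w p) →
      ∃ Z : Finset (ℝ × ℝ), (Z.card : ℝ) ≤ C * (∑ p ∈ A, w p) *
        (1 + Real.log (1 + Real.log (1 + Real.log (1 + ∑ p ∈ A, w p)))) ∧
      ∀ R : Bx, 1 ≤ ∑ p ∈ fl A (fun p => In R p.1 p.2), w p → ∃ z ∈ Z, In R z.1 z.2 := by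
  obtain ⟨C, hC, h⟩ := h
  refine ⟨6 * C, by positivity, ?_⟩
  intro A w hw
  obtain ⟨W, hW⟩ : ∃ W : ℝ, W = ∑ p ∈ A, w p := ⟨_, rfl⟩
  have hW0 : 0 ≤ W := by rw [hW]; exact sum_nonneg hw
  rw [← hW]
  have g1 : 0 ≤ Real.log (1 + W) := B2.lg_nonneg hW0
  have g2 := B2.lg_nonneg g1
  have g3 := B2.lg_nonneg g2
  by_cases hW1 : W < 1
  · refine ⟨∅, ?_, ?_⟩
    · rw [card_empty, Nat.cast_zero]
      positivity
    · intro R hR
      exfalso
      have : ∑ p ∈ fl A (fun p => In R p.1 p.2), w p ≤ ∑ p ∈ A, w p :=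
        sum_le_sum_of_subset_of_nonneg (fl_subset _ _) (fun p hp _ => hw p hp)
      linarith
  · push Not at hW1
    have e0 : 0 ≤ Real.log (2 * W) := Real.log_nonneg (by linarith)
    have e1 : Real.log (2 * W) ≤ 2 + Real.log (1 + W) := by
      have hl2 : Real.log 2 ≤ 1 := by
        have := Real.log_two_lt_d9
        linarith
      rw [Real.log_mul (by norm_num) (by linarith)]
      have := Real.log_le_log (show 0 < W by linarith) (show W ≤ 1 + W by linarith)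
      linarith
    have e2 := B2.lg_shift g1 e0 e1
    have e3 := B2.lg_shift g2 (B2.lg_nonneg e0) e2
    have hN := h (2 * W) (by linarith)
    obtain ⟨Z, hZ, hR⟩ := weights_nets (by
      have e4 := B2.lg_nonneg (B2.lg_nonneg e0)
      positivity) hN A w hw hW.symm
    refine ⟨Z, hZ.trans ?_, hR⟩
    have e5 : 1 + Real.log (1 + Real.log (1 + Real.log (2 * W))) ≤
        3 * (1 + Real.log (1 + Real.log (1 + Real.log (1 + W)))) := by linarith
    have e6 : 2 * (C * (1 + Real.log (1 + Real.log (1 + Real.log (2 * W))))) * W =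
        (2 * C * W) * (1 + Real.log (1 + Real.log (1 + Real.log (2 * W)))) := by ring
    have e7 : 6 * C * W * (1 + Real.log (1 + Real.log (1 + Real.log (1 + W)))) =
        (2 * C * W) * (3 * (1 + Real.log (1 + Real.log (1 + Real.log (1 + W))))) := by ring
    rw [e6, e7]
    exact mul_le_mul_of_nonneg_left e5 (by positivity)

/-- the weighted form of the conditional theorem -/
theorem weights_cond (h : ∃ X : ℝ, 1 ≤ X ∧ ∀ μ : ℝ, 1 ≤ μ → Nets X μ) :
    ∃ C : ℝ, 0 < C ∧ ∀ (A : Finset (ℝ × ℝ)) (w : ℝ × ℝ → ℝ), (∀ p ∈ A, 0 ≤ w p) →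
      ∃ Z : Finset (ℝ × ℝ), (Z.card : ℝ) ≤ C * (∑ p ∈ A, w p) ∧
      ∀ R : Bx, 1 ≤ ∑ p ∈ fl A (fun p => In R p.1 p.2), w p → ∃ z ∈ Z, In R z.1 z.2 := by
  obtain ⟨X, hX, h⟩ := h
  refine ⟨2 * X, by linarith, ?_⟩
  intro A w hw
  by_cases hW1 : ∑ p ∈ A, w p < 1
  · refine ⟨∅, ?_, ?_⟩
    · rw [card_empty, Nat.cast_zero]
      have : 0 ≤ ∑ p ∈ A, w p := sum_nonneg hw
      positivity
    · intro R hR
      exfalso
      have : ∑ p ∈ fl A (fun p => In R p.1 p.2), w p ≤ ∑ p ∈ A, w p :=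
        sum_le_sum_of_subset_of_nonneg (fl_subset _ _) (fun p hp _ => hw p hp)
      linarith
  · push Not at hW1
    exact weights_nets (by linarith) (h (2 * ∑ p ∈ A, w p) (by linarith)) A w hw rfl

end Wn
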