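import Pool.Agent.Work.MP_959bfa_wn.Alpha
import Pool.Agent.Work.MP_959bfa_wn.Cond
import Pool.Agent.Work.MP_959bfa_wn.Weights
import Pool.Agent.Work.MP_959bfa_wn_helper17.BOOT2
import Pool.Agent.Work.MP_959bfa_wn_helper26.CHO
import Pool.Agent.Work.MP_959bfa_wn_helper26.GRID
import Pool.Agent.Work.MP_959bfa_wn_helper26.IND
import Pool.Agent.Work.MP_959bfa_wn_helper39.THC
import Pool.Agent.Work.MP_959bfa_wn_helper40.SORT
import Pool.Agent.Work.MP_959bfa_wn_helper44.LEM1
import Pool.Agent.Work.MP_959bfa_wn_helper48.PARA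
import Pool.Agent.Work.MP_959bfa_wn_helper48.PARB2
import Pool.Agent.Work.MP_959bfa_wn_helper50.GAP
import Pool.Agent.Work.MP_959bfa_wn_helper50.TAIL
import Pool.Agent.Work.MP_959bfa_wn_helper52.CNT
import Pool.Agent.Work.MP_959bfa_wn_helper52.MWU
import Pool.Agent.Work.MP_959bfa_wn_helper64.ONE2
import Pool.Agent.Work.MP_959bfa_wn_helper64.PARC
import Pool.Agent.Work.MP_959bfa_wn_helper70.COM
import Pool.Agent.Work.MP_959bfa_wn_helper70.HALV
import Pool.Agent.Work.MP_959bfa_wn_helper76.LRC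
import Pool.Agent.Work.MP_959bfa_wn_helper81.CRC
import Pool.Agent.Work.MP_959bfa_wn_helper81.GRP
import Pool.Agent.Work.MP_959bfa_wn_helper81.SWP
import Pool.Agent.Work.MP_959bfa_wn_helper87.CORN
import Pool.Agent.Work.MP_959bfa_wn_helper87.RED

/-!
MP_959bfa_co: assembly of the blocks.
-/

namespace Wn

/-- disjoint subfamilies: a family of depth `w` has at least `|J| / (C w (log w)^2)` pairwise
disjoint members -/
theorem thc : stmt_THC := THC (RED CORN) (GRP LEM1) (CRC COM) LRC (IND CORN)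

theorem halv : stmt_HALV := HALV (CNT SWP) TAIL

theorem gap : stmt_GAP := GAP MWU

theorem para : stmt_PARA := PARA CHO

/-- nets for multisets -/
theorem boot : stmt_BOOT2 := BOOT2 GRID (ONE2 SORT halv gap thc para PARB2 PARC)

/-- linear nets under the hypothesis `α ω ≥ c n` -/
theorem boot_cond (h : AlphaOmega) : ∃ X : ℝ, 1 ≤ X ∧ ∀ μ : ℝ, 1 ≤ μ → Nets X μ :=
  cond_nets SORT halv gap para PARC GRID (db_of_alpha h)

end Wn
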